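import Pool.Agent.H174.GP.StA
import Pool.Agent.H174.GP.StP
import Pool.Agent.H174.GP.StC
import Pool.Agent.H174.GP.StB

/-!
# Ratio of binomial probabilities (`S_bin2`)
-/

set_option autoImplicit false

open Finset Filter Topology

namespace Pool.Agent.H32.GP174

open Pool.Agent.H174.GP

lemma bn_nonneg {n k : ℕ} {p : ℝ} (h0 : 0 ≤ p) (h1 : p ≤ 1) : 0 ≤ bn n p k := by
  unfold bn
  have : 0 ≤ 1 - p := by linarith
  positivity

lemma bn_rec {n j : ℕ} (p : ℝ) (hj : j < n) :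
    bn n p (j + 1) * (((j : ℝ) + 1) * (1 - p)) = bn n p j * (((n : ℝ) - j) * p) := by
  unfold bn
  have h1 : (n.choose (j + 1) : ℝ) * ((j : ℝ) + 1) = (n.choose j : ℝ) * ((n : ℝ) - j) := by
    have h := Nat.choose_succ_right_eq n j
    have h2 : ((n.choose (j + 1) * (j + 1) : ℕ) : ℝ) = ((n.choose j * (n - j) : ℕ) : ℝ) := by
      rw [h]
    push_cast [Nat.cast_sub hj.le] at h2
    exact h2
  have h2 : n - j = n - (j + 1) + 1 := by omega
  rw [h2, pow_succ (1 - p), pow_succ p]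
  calc (n.choose (j + 1) : ℝ) * (p ^ j * p) * (1 - p) ^ (n - (j + 1)) * (((j : ℝ) + 1) * (1 - p))
      = ((n.choose (j + 1) : ℝ) * ((j : ℝ) + 1)) * (p ^ j * p * (1 - p) ^ (n - (j + 1)) * (1 - p)) := by
        ring
    _ = ((n.choose j : ℝ) * ((n : ℝ) - j)) * (p ^ j * p * (1 - p) ^ (n - (j + 1)) * (1 - p)) := by
        rw [h1]
    _ = _ := by ring

/-- one step, in both directions -/
lemma bn_step {p0 p W : ℝ} {n j : ℕ} (hp0 : 0 < p0) (hp : p0 ≤ p) (hp1 : p ≤ 1 - p0) (hn : 1 ≤ n)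
    (hW0 : 0 ≤ W) (hW : W ≤ p0 / 2 * n) (h1 : p * n - W ≤ j) (h2 : (j : ℝ) ≤ p * n + W) :
    bn n p (j + 1) ≤ bn n p j * Real.exp (2 / p0 ^ 2 * (W + 1) / n) ∧
    bn n p j ≤ bn n p (j + 1) * Real.exp (2 / p0 ^ 2 * (W + 1) / n) := by
  have hn0 : (0 : ℝ) < n := by exact_mod_cast hn
  have hb : ∀ i, 0 ≤ bn n p i := fun i => bn_nonneg (by linarith) (by linarith)
  have hpn : p0 * n ≤ p * n := mul_le_mul_of_nonneg_right hp hn0.le
  have hpn1 : p * n ≤ (1 - p0) * n := mul_le_mul_of_nonneg_right hp1 hn0.le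
  have hpos : 0 < p0 * n := by positivity
  have hjn : (j : ℝ) < n := by linarith
  have hjn' : j < n := by exact_mod_cast hjn
  have hrec := bn_rec p hjn'
  have hE0 : 0 ≤ 2 / p0 ^ 2 * (W + 1) / n := by positivity
  have hE := Real.add_one_le_exp (2 / p0 ^ 2 * (W + 1) / n)
  have hEv : p0 ^ 2 * n / 2 * (2 / p0 ^ 2 * (W + 1) / n) = W + 1 := by
    field_simp
  set ε := 2 / p0 ^ 2 * (W + 1) / n with hε
  have a1 : 0 < ((j : ℝ) + 1) * (1 - p) := by
    have : (0 : ℝ) ≤ j := Nat.cast_nonneg j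
    have : 0 < 1 - p := by linarith
    positivity
  have a2 : 0 < ((n : ℝ) - j) * p := by
    have h3 : 0 < (n : ℝ) - j := by linarith
    have h4 : 0 < p := by linarith
    positivity
  have b1 : p0 ^ 2 * n / 2 ≤ ((j : ℝ) + 1) * (1 - p) := by
    have h3 : p0 / 2 * n ≤ (j : ℝ) + 1 := by linarith
    have h4 : p0 ≤ 1 - p := by linarith
    calc p0 ^ 2 * n / 2 = (p0 / 2 * n) * p0 := by ring
      _ ≤ ((j : ℝ) + 1) * (1 - p) := mul_le_mul h3 h4 hp0.le (by positivity)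
  have b2 : p0 ^ 2 * n / 2 ≤ ((n : ℝ) - j) * p := by
    have h3 : p0 / 2 * n ≤ (n : ℝ) - j := by linarith
    calc p0 ^ 2 * n / 2 = (p0 / 2 * n) * p0 := by ring
      _ ≤ ((n : ℝ) - j) * p := mul_le_mul h3 hp hp0.le (by linarith)
  have c1 : W + 1 ≤ ((j : ℝ) + 1) * (1 - p) * ε := by
    rw [← hEv]
    exact mul_le_mul_of_nonneg_right b1 hE0
  have c2 : W + 1 ≤ ((n : ℝ) - j) * p * ε := by
    rw [← hEv]
    exact mul_le_mul_of_nonneg_right b2 hE0
  have d1 : ((n : ℝ) - j) * p ≤ ((j : ℝ) + 1) * (1 - p) * Real.exp ε := by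
    have h3 : ((j : ℝ) + 1) * (1 - p) * (ε + 1) ≤ ((j : ℝ) + 1) * (1 - p) * Real.exp ε :=
      mul_le_mul_of_nonneg_left hE a1.le
    have h4 : ((n : ℝ) - j) * p - ((j : ℝ) + 1) * (1 - p) = p * n - j - (1 - p) := by ring
    have h5 : ((j : ℝ) + 1) * (1 - p) * (ε + 1) =
      ((j : ℝ) + 1) * (1 - p) * ε + ((j : ℝ) + 1) * (1 - p) := by ring
    linarith
  have d2 : ((j : ℝ) + 1) * (1 - p) ≤ ((n : ℝ) - j) * p * Real.exp ε := by
    have h3 : ((n : ℝ) - j) * p * (ε + 1) ≤ ((n : ℝ) - j) * p * Real.exp ε :=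
      mul_le_mul_of_nonneg_left hE a2.le
    have h4 : ((n : ℝ) - j) * p - ((j : ℝ) + 1) * (1 - p) = p * n - j - (1 - p) := by ring
    have h5 : ((n : ℝ) - j) * p * (ε + 1) = ((n : ℝ) - j) * p * ε + ((n : ℝ) - j) * p := by ring
    linarith
  constructor
  · have h3 := mul_le_mul_of_nonneg_left d1 (hb j)
    rw [← hrec] at h3
    have h4 : bn n p j * (((j : ℝ) + 1) * (1 - p) * Real.exp ε) =
      bn n p j * Real.exp ε * (((j : ℝ) + 1) * (1 - p)) := by ring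
    rw [h4] at h3
    exact le_of_mul_le_mul_right h3 a1
  · have h3 := mul_le_mul_of_nonneg_left d2 (hb (j + 1))
    rw [hrec] at h3
    have h4 : bn n p (j + 1) * (((n : ℝ) - j) * p * Real.exp ε) =
      bn n p (j + 1) * Real.exp ε * (((n : ℝ) - j) * p) := by ring
    rw [h4] at h3
    exact le_of_mul_le_mul_right h3 a2

lemma bn_many {p0 p W : ℝ} {n k : ℕ} (hp0 : 0 < p0) (hp : p0 ≤ p) (hp1 : p ≤ 1 - p0) (hn : 1 ≤ n)
    (hW0 : 0 ≤ W) (hW : W ≤ p0 / 2 * n) (h1 : p * n - W ≤ k) (d : ℕ)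
    (h2 : ((k + d : ℕ) : ℝ) ≤ p * n + W) :
    bn n p (k + d) ≤ bn n p k * Real.exp (d * (2 / p0 ^ 2 * (W + 1) / n)) ∧
    bn n p k ≤ bn n p (k + d) * Real.exp (d * (2 / p0 ^ 2 * (W + 1) / n)) := by
  induction d with
  | zero => simp
  | succ d ih =>
    have h3 : ((k + d : ℕ) : ℝ) ≤ p * n + W := by
      refine le_trans ?_ h2
      exact_mod_cast (by omega : k + d ≤ k + (d + 1))
    obtain ⟨i1, i2⟩ := ih h3
    have h4 : p * n - W ≤ ((k + d : ℕ) : ℝ) := by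
      refine h1.trans ?_
      exact_mod_cast (by omega : k ≤ k + d)
    obtain ⟨s1, s2⟩ := bn_step hp0 hp hp1 hn hW0 hW h4 h3
    have e : Real.exp (((d + 1 : ℕ) : ℝ) * (2 / p0 ^ 2 * (W + 1) / n)) =
        Real.exp (d * (2 / p0 ^ 2 * (W + 1) / n)) * Real.exp (2 / p0 ^ 2 * (W + 1) / n) := by
      rw [← Real.exp_add]
      congr 1
      push_cast
      ring
    rw [e]
    have hE := Real.exp_pos (2 / p0 ^ 2 * (W + 1) / n)
    have hD := Real.exp_pos (d * (2 / p0 ^ 2 * (W + 1) / n))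
    constructor
    · calc bn n p (k + (d + 1)) ≤ bn n p (k + d) * Real.exp (2 / p0 ^ 2 * (W + 1) / n) := s1
        _ ≤ bn n p k * Real.exp (d * (2 / p0 ^ 2 * (W + 1) / n)) *
            Real.exp (2 / p0 ^ 2 * (W + 1) / n) := mul_le_mul_of_nonneg_right i1 hE.le
        _ = _ := by ring
    · calc bn n p k ≤ bn n p (k + d) * Real.exp (d * (2 / p0 ^ 2 * (W + 1) / n)) := i2
        _ ≤ bn n p (k + d + 1) * Real.exp (2 / p0 ^ 2 * (W + 1) / n) *
            Real.exp (d * (2 / p0 ^ 2 * (W + 1) / n)) := mul_le_mul_of_nonneg_right s2 hD.le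
        _ = _ := by
            rw [show k + d + 1 = k + (d + 1) from rfl]
            ring

theorem gp_bin2 : Pool.Agent.H174.GP.S_bin2 := by
  intro p0 hp0 hp02
  refine ⟨2 / p0 ^ 2, by positivity, p0 / 2, by positivity, ?_⟩
  intro p u n k k' hp hp1 hn hu hu2 hk hk'
  have hn0 : (0 : ℝ) < n := by exact_mod_cast hn
  have hs : Real.sqrt n * Real.sqrt n = n := Real.mul_self_sqrt hn0.le
  obtain ⟨W, hW⟩ : ∃ W : ℝ, W = u * Real.sqrt n := ⟨_, rfl⟩
  have hW0 : 0 ≤ W := by rw [hW]; positivity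
  have hW2 : W ≤ p0 / 2 * n := by
    have h1 : u * Real.sqrt n ≤ p0 / 2 * Real.sqrt n * Real.sqrt n :=
      mul_le_mul_of_nonneg_right hu2 (Real.sqrt_nonneg _)
    rw [hW]
    calc _ ≤ _ := h1
      _ = p0 / 2 * (Real.sqrt n * Real.sqrt n) := by ring
      _ = _ := by rw [hs]
  rw [← hW] at hk hk' ⊢
  rw [abs_le] at hk hk'
  rcases le_total k k' with h | h
  · obtain ⟨d, rfl⟩ := Nat.exists_eq_add_of_le h
    have h1 := (bn_many hp0 hp hp1 hn hW0 hW2 (k := k) (by linarith) d (by linarith)).2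
    have e : |(k : ℝ) - ((k + d : ℕ) : ℝ)| = d := by
      push_cast
      rw [sub_add_cancel_left, abs_neg, Nat.abs_cast]
    rw [e]
    refine h1.trans (le_of_eq ?_)
    congr 2
    ring
  · obtain ⟨d, rfl⟩ := Nat.exists_eq_add_of_le h
    have h1 := (bn_many hp0 hp hp1 hn hW0 hW2 (k := k') (by linarith) d (by linarith)).1
    have e : |((k' + d : ℕ) : ℝ) - (k' : ℝ)| = d := by
      push_cast
      rw [add_sub_cancel_left, Nat.abs_cast]
    rw [e]
    refine h1.trans (le_of_eq ?_)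
    congr 2
    ring

end Pool.Agent.H32.GP174
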