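import Pool.Agent.H174.GP.StE
import Pool.Agent.H174.GP.StP
import Pool.Agent.H975.GP174.indep

set_option autoImplicit false

/-! # Project GP: `S_DU2` -/

open MeasureTheory ProbabilityTheory Finset
open scoped ENNReal

namespace Pool.Agent.H32.GP174.DU2

open Pool.Agent.H174.GP

theorem gs_meas (σ : ℝ) (j : ℕ) : Measurable (fun ω : ℕ → ℝ => gs σ ω j) := by
  unfold gs
  have h : Measurable (fun ω : ℕ → ℝ => |ω j|) :=
    continuous_abs.measurable.comp (measurable_pi_apply j)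
  exact Nat.measurable_floor.comp (h.div_const (σ * j))

theorem gv_meas (σ : ℝ) : Measurable (fun (ω : ℕ → ℝ) (j : ℕ) => gs σ ω j) :=
  measurable_pi_lambda _ fun j => gs_meas σ j

/-- extension by zeros -/
def ext0 (I : Finset ℕ) (v : I → ℕ) (j : ℕ) : ℕ := if h : j ∈ I then v ⟨j, h⟩ else 0

theorem depZI_meas {I : Finset ℕ} {F : Set ((ℕ → ℕ) × (ℕ → ℕ))} (hF : DepZI I F) :
    MeasurableSet F := by
  have h1 : F = (fun p : (ℕ → ℕ) × (ℕ → ℕ) => ((fun i : I => p.1 i), (fun i : I => p.2 i))) ⁻¹'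
      {v : (I → ℕ) × (I → ℕ) | (ext0 I v.1, ext0 I v.2) ∈ F} := by
    ext p
    simp only [Set.mem_preimage, Set.mem_ofPred_eq]
    have h2 : ∀ j ∈ I, p.1 j = ext0 I (fun i : I => p.1 i) j ∧
        p.2 j = ext0 I (fun i : I => p.2 i) j := by
      intro j hj
      constructor <;> · unfold ext0; rw [dif_pos hj]
    constructor
    · intro h
      exact hF p _ h2 h
    · intro h
      exact hF _ p (fun j hj => ⟨(h2 j hj).1.symm, (h2 j hj).2.symm⟩) h
  rw [h1]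
  apply MeasurableSet.preimage (MeasurableSet.of_discrete)
  refine Measurable.prodMk ?_ ?_
  · exact measurable_pi_lambda _ fun i => (measurable_pi_apply _).comp measurable_fst
  · exact measurable_pi_lambda _ fun i => (measurable_pi_apply _).comp measurable_snd

/-- the sum over the coordinates `2..L` -/
noncomputable def SS (σ : ℝ) (L : ℕ) (ω : ℕ → ℝ) : ℤ := ∑ j ∈ Finset.Icc 2 L, (j : ℤ) * (gs σ ω j : ℤ)

/-- the other coordinates -/
noncomputable def RR (σ : ℝ) (L d : ℕ) (ω : ℕ → ℝ) : ℤ :=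
  (gs σ ω 1 : ℤ) + ∑ j ∈ Finset.Ioc L d, (j : ℤ) * (gs σ ω j : ℤ)

theorem mul_meas (σ : ℝ) (j : ℕ) : Measurable (fun ω : ℕ → ℝ => (j : ℤ) * (gs σ ω j : ℤ)) := by
  have h : Measurable (fun n : ℕ => (j : ℤ) * (n : ℤ)) := measurable_from_top
  exact h.comp (gs_meas σ j)

theorem SS_meas (σ : ℝ) (L : ℕ) : Measurable (SS σ L) := by
  unfold SS
  exact Finset.measurable_sum _ fun j _ => mul_meas σ j

theorem RR_meas (σ : ℝ) (L d : ℕ) : Measurable (RR σ L d) := by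
  unfold RR
  have h : Measurable (fun n : ℕ => (n : ℤ)) := measurable_from_top
  exact (h.comp (gs_meas σ 1)).add (Finset.measurable_sum _ fun j _ => mul_meas σ j)

theorem size_eq (σ : ℝ) {L d : ℕ} (hL : 1 ≤ L) (hd : 4 * L ≤ d) (ω : ℕ → ℝ) :
    ((∑ i : Fin d, ((i : ℕ) + 1) * gF d σ ω i : ℕ) : ℤ) = RR σ L d ω + SS σ L ω := by
  unfold gF RR SS
  have h1 : (∑ i : Fin d, ((i : ℕ) + 1) * gs σ ω ((i : ℕ) + 1)) =
      ∑ j ∈ Finset.range d, (j + 1) * gs σ ω (j + 1) :=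
    Fin.sum_univ_eq_sum_range (fun j => (j + 1) * gs σ ω (j + 1)) d
  have h2 : (∑ j ∈ Finset.range d, (j + 1) * gs σ ω (j + 1)) = ∑ j ∈ Finset.Ioc 0 d, j * gs σ ω j := by
    have h3 := Finset.sum_Ico_add' (fun j => j * gs σ ω j) 0 d 1
    have h4 : Finset.Ioc 0 d = Finset.Ico (0 + 1) (d + 1) := by
      ext x
      simp only [Finset.mem_Ioc, Finset.mem_Ico]
      omega
    rw [h4, ← h3, Finset.range_eq_Ico]
  rw [h1, h2]
  have h5 : Finset.Ioc 0 d = insert 1 (Finset.Icc 2 L) ∪ Finset.Ioc L d := by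
    ext x
    simp only [Finset.mem_Ioc, Finset.mem_union, Finset.mem_insert, Finset.mem_Icc]
    omega
  have h6 : Disjoint (insert 1 (Finset.Icc 2 L)) (Finset.Ioc L d) := by
    rw [Finset.disjoint_left]
    intro x hx
    simp only [Finset.mem_Ioc, Finset.mem_insert, Finset.mem_Icc] at hx ⊢
    omega
  have h7 : 1 ∉ Finset.Icc 2 L := by simp
  rw [h5, Finset.sum_union h6, Finset.sum_insert h7]
  push_cast
  ring

theorem one_seq {σ x : ℝ} {L d : ℕ} (_hL : 1 ≤ L) (hx : ∀ t : ℤ, PP.real {ω | RR σ L d ω = t} ≤ x)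
    {G : Set (ℕ → ℝ)} (hG : MeasurableSet G) (hGd : DepOn (Finset.Icc 2 L) G) (a : ℤ) :
    PP {ω | ω ∈ G ∧ RR σ L d ω + SS σ L ω = a} ≤ ENNReal.ofReal x * PP G := by
  have hSd : ∀ ω ω' : ℕ → ℝ, (∀ j ∈ Finset.Icc 2 L, ω j = ω' j) → SS σ L ω = SS σ L ω' := by
    intro ω ω' h
    unfold SS gs
    refine Finset.sum_congr rfl fun j hj => ?_
    rw [h j hj]
  have hIJ : Disjoint (Finset.Icc 2 L) (insert 1 (Finset.Ioc L d)) := by
    rw [Finset.disjoint_left]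
    intro y hy
    simp only [Finset.mem_Ioc, Finset.mem_insert, Finset.mem_Icc] at hy ⊢
    omega
  have key : ∀ t : ℤ, PP ((G ∩ {ω | SS σ L ω = t}) ∩ {ω | RR σ L d ω = a - t}) ≤
      ENNReal.ofReal x * PP (G ∩ {ω | SS σ L ω = t}) := by
    intro t
    have m1 : MeasurableSet {ω : ℕ → ℝ | SS σ L ω = t} := SS_meas σ L (measurableSet_singleton t)
    have m2 : MeasurableSet {ω : ℕ → ℝ | RR σ L d ω = a - t} :=
      RR_meas σ L d (measurableSet_singleton (a - t))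
    have h1 := Pool.Agent.H975.GP174.gp_indep (Finset.Icc 2 L) (insert 1 (Finset.Ioc L d))
      (G ∩ {ω | SS σ L ω = t}) {ω | RR σ L d ω = a - t} hIJ (hG.inter m1) m2
      (fun ω ω' h hω => ⟨hGd ω ω' h hω.1, by
        have h2 := hSd ω ω' h
        have h3 : SS σ L ω = t := hω.2
        show SS σ L ω' = t
        rw [← h2, h3]⟩)
      (fun ω ω' h hω => by
        have h3 : RR σ L d ω = a - t := hω
        show RR σ L d ω' = a - t
        rw [← h3]
        unfold RR gs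
        rw [h 1 (Finset.mem_insert_self _ _)]
        congr 1
        refine Finset.sum_congr rfl fun j hj => ?_
        rw [h j (Finset.mem_insert_of_mem hj)])
    have h2 : PP ((G ∩ {ω | SS σ L ω = t}) ∩ {ω | RR σ L d ω = a - t}) =
        ENNReal.ofReal (PP.real (G ∩ {ω | SS σ L ω = t}) * PP.real {ω | RR σ L d ω = a - t}) := by
      rw [← h1, ofReal_measureReal]
    rw [h2, mul_comm, ENNReal.ofReal_mul measureReal_nonneg]
    rw [ofReal_measureReal (μ := PP) (s := G ∩ {ω | SS σ L ω = t})]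
    exact mul_le_mul_left (ENNReal.ofReal_le_ofReal (hx (a - t))) _
  have hsub : {ω | ω ∈ G ∧ RR σ L d ω + SS σ L ω = a} ⊆
      ⋃ t : ℤ, ((G ∩ {ω | SS σ L ω = t}) ∩ {ω | RR σ L d ω = a - t}) := by
    intro ω hω
    refine Set.mem_iUnion.2 ⟨SS σ L ω, ⟨hω.1, rfl⟩, ?_⟩
    show RR σ L d ω = a - SS σ L ω
    have := hω.2
    omega
  calc PP {ω | ω ∈ G ∧ RR σ L d ω + SS σ L ω = a}
      ≤ PP (⋃ t : ℤ, ((G ∩ {ω | SS σ L ω = t}) ∩ {ω | RR σ L d ω = a - t})) := measure_mono hsub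
    _ ≤ ∑' t : ℤ, PP ((G ∩ {ω | SS σ L ω = t}) ∩ {ω | RR σ L d ω = a - t}) := measure_iUnion_le _
    _ ≤ ∑' t : ℤ, ENNReal.ofReal x * PP (G ∩ {ω | SS σ L ω = t}) := ENNReal.tsum_le_tsum key
    _ = ENNReal.ofReal x * ∑' t : ℤ, PP (G ∩ {ω | SS σ L ω = t}) := ENNReal.tsum_mul_left
    _ = ENNReal.ofReal x * PP G := by
        congr 1
        rw [← measure_iUnion]
        · congr 1
          ext ω
          simp
        · intro s t hst
          rw [Function.onFun, Set.disjoint_left]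
          intro ω h1 h2
          exact hst ((h1.2 : SS σ L ω = s).symm.trans h2.2)
        · intro t
          exact hG.inter (SS_meas σ L (measurableSet_singleton t))

theorem slice {σ σ' x x' : ℝ} {L d d' : ℕ} (hL : 1 ≤ L)
    (hx : ∀ t : ℤ, PP.real {ω | RR σ L d ω = t} ≤ x)
    (hx' : ∀ t : ℤ, PP.real {ω | RR σ' L d' ω = t} ≤ x')
    {F : Set ((ℕ → ℕ) × (ℕ → ℕ))} (hF : DepZI (Finset.Icc 2 L) F) (a b : ℤ) :
    (PP.prod PP) {p | RR σ L d p.1 + SS σ L p.1 = a ∧ RR σ' L d' p.2 + SS σ' L p.2 = b ∧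
      ((fun j => gs σ p.1 j), (fun j => gs σ' p.2 j)) ∈ F} ≤
    ENNReal.ofReal x * (ENNReal.ofReal x' *
      (PP.prod PP) {p | ((fun j => gs σ p.1 j), (fun j => gs σ' p.2 j)) ∈ F}) := by
  have hFm := depZI_meas hF
  have hpair : Measurable (fun p : (ℕ → ℝ) × (ℕ → ℝ) =>
      (((fun j => gs σ p.1 j), (fun j => gs σ' p.2 j)) : (ℕ → ℕ) × (ℕ → ℕ))) :=
    ((gv_meas σ).comp measurable_fst).prodMk ((gv_meas σ').comp measurable_snd)
  have mF : MeasurableSet {p : (ℕ → ℝ) × (ℕ → ℝ) |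
      (((fun j => gs σ p.1 j), (fun j => gs σ' p.2 j)) : (ℕ → ℕ) × (ℕ → ℕ)) ∈ F} := hpair hFm
  have m1 : MeasurableSet {p : (ℕ → ℝ) × (ℕ → ℝ) | RR σ L d p.1 + SS σ L p.1 = a} :=
    (((RR_meas σ L d).add (SS_meas σ L)).comp measurable_fst) (measurableSet_singleton a)
  have m2 : MeasurableSet {p : (ℕ → ℝ) × (ℕ → ℝ) | RR σ' L d' p.2 + SS σ' L p.2 = b} :=
    (((RR_meas σ' L d').add (SS_meas σ' L)).comp measurable_snd) (measurableSet_singleton b)
  set B : Set ((ℕ → ℝ) × (ℕ → ℝ)) := {p | RR σ' L d' p.2 + SS σ' L p.2 = b ∧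
      ((fun j => gs σ p.1 j), (fun j => gs σ' p.2 j)) ∈ F} with hB
  have mB : MeasurableSet B := m2.inter mF
  set A : Set ((ℕ → ℝ) × (ℕ → ℝ)) := {p | RR σ L d p.1 + SS σ L p.1 = a ∧
      RR σ' L d' p.2 + SS σ' L p.2 = b ∧
      ((fun j => gs σ p.1 j), (fun j => gs σ' p.2 j)) ∈ F} with hA
  have mA : MeasurableSet A := m1.inter mB
  set FF : Set ((ℕ → ℝ) × (ℕ → ℝ)) := {p | ((fun j => gs σ p.1 j), (fun j => gs σ' p.2 j)) ∈ F} with hFF
  have step1 : (PP.prod PP) A ≤ ENNReal.ofReal x * (PP.prod PP) B := by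
    rw [Measure.prod_apply_symm mA, Measure.prod_apply_symm mB, ← lintegral_const_mul _
      (measurable_measure_prodMk_right mB)]
    refine lintegral_mono fun ω2 => ?_
    have mG : MeasurableSet ((fun ω1 : ℕ → ℝ => (ω1, ω2)) ⁻¹' B) := measurable_prodMk_right mB
    refine le_trans (measure_mono ?_) (one_seq hL hx mG ?_ a)
    · intro ω1 h
      exact ⟨h.2, h.1⟩
    · intro ω ω' h hω
      refine ⟨hω.1, hF ((fun j => gs σ ω j), (fun j => gs σ' ω2 j))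
        ((fun j => gs σ ω' j), (fun j => gs σ' ω2 j)) (fun j hj => ⟨?_, rfl⟩) hω.2⟩
      show gs σ ω j = gs σ ω' j
      unfold gs
      rw [h j hj]
  have step2 : (PP.prod PP) B ≤ ENNReal.ofReal x' * (PP.prod PP) FF := by
    rw [Measure.prod_apply mB, Measure.prod_apply mF, ← lintegral_const_mul _
      (measurable_measure_prodMk_left mF)]
    refine lintegral_mono fun ω1 => ?_
    have mG : MeasurableSet ((fun ω2 : ℕ → ℝ => (ω1, ω2)) ⁻¹' FF) := measurable_prodMk_left mF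
    refine le_trans (measure_mono ?_) (one_seq hL hx' mG ?_ b)
    · intro ω2 h
      exact ⟨h.2, h.1⟩
    · intro ω ω' h hω
      refine hF ((fun j => gs σ ω1 j), (fun j => gs σ' ω j))
        ((fun j => gs σ ω1 j), (fun j => gs σ' ω' j)) (fun j hj => ⟨rfl, ?_⟩) hω
      show gs σ' ω j = gs σ' ω' j
      unfold gs
      rw [h j hj]
  exact step1.trans (mul_le_mul_right step2 _)

theorem gp_du2 (h1 : S_supJ) (_h2 : S_L3) : Pool.Agent.H174.GP.S_DU2 := by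
  intro s1 s2 hs1 hs2
  obtain ⟨C, hC, d0, H⟩ := h1 s1 s2 hs1 hs2
  refine ⟨C, hC, d0, ?_⟩
  intro d d' σ σ' hd hd' hσ hσ' ha hb ha' hb' L n F1 F2 hL h4 h4' hF1 hF2
  have hx : ∀ t : ℤ, PP.real {ω | RR σ L d ω = t} ≤ C * (d : ℝ) ^ (-(3 / 2) : ℝ) :=
    fun t => H d hd σ hσ ha hb L hL h4 t
  have hx' : ∀ t : ℤ, PP.real {ω | RR σ' L d' ω = t} ≤ C * (d' : ℝ) ^ (-(3 / 2) : ℝ) :=
    fun t => H d' hd' σ' hσ' ha' hb' L hL h4' t
  set x : ℝ := C * (d : ℝ) ^ (-(3 / 2) : ℝ) with hxd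
  set x' : ℝ := C * (d' : ℝ) ^ (-(3 / 2) : ℝ) with hxd'
  have hx0 : 0 ≤ x := by positivity
  have hx0' : 0 ≤ x' := by positivity
  have hpair : Measurable (fun p : (ℕ → ℝ) × (ℕ → ℝ) =>
      (((fun j => gs σ p.1 j), (fun j => gs σ' p.2 j)) : (ℕ → ℕ) × (ℕ → ℕ))) :=
    ((gv_meas σ).comp measurable_fst).prodMk ((gv_meas σ').comp measurable_snd)
  set P1 : Set ((ℕ → ℝ) × (ℕ → ℝ)) := {p | ((fun j => gs σ p.1 j), (fun j => gs σ' p.2 j)) ∈ F1} with hP1
  set P2 : Set ((ℕ → ℝ) × (ℕ → ℝ)) := {p | ((fun j => gs σ p.1 j), (fun j => gs σ' p.2 j)) ∈ F2} with hP2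
  have mP1 : MeasurableSet P1 := hpair (depZI_meas hF1)
  have mP2 : MeasurableSet P2 := hpair (depZI_meas hF2)
  -- the event, in integers
  set E : Set (((ℕ → ℝ) × (ℕ → ℝ)) × ((ℕ → ℝ) × (ℕ → ℝ))) :=
    {q | (d : ℤ) ^ 2 + ((RR σ L d q.1.1 + SS σ L q.1.1) + (RR σ L d q.2.1 + SS σ L q.2.1)) = n ∧
      (d' : ℤ) ^ 2 + ((RR σ' L d' q.1.2 + SS σ' L q.1.2) + (RR σ' L d' q.2.2 + SS σ' L q.2.2)) = n ∧
      q.1 ∈ P1 ∧ q.2 ∈ P2} with hE
  have e1 : ∀ (d : ℕ) (σ : ℝ) (ω ω' : ℕ → ℝ), 4 * L ≤ d →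
      ((d ^ 2 + ∑ i : Fin d, ((i : ℕ) + 1) * (gF d σ ω i + gF d σ ω' i) : ℕ) : ℤ) =
      (d : ℤ) ^ 2 + ((RR σ L d ω + SS σ L ω) + (RR σ L d ω' + SS σ L ω')) := by
    intro d σ ω ω' h
    rw [← size_eq σ hL h ω, ← size_eq σ hL h ω']
    have : (∑ i : Fin d, ((i : ℕ) + 1) * (gF d σ ω i + gF d σ ω' i)) =
        (∑ i : Fin d, ((i : ℕ) + 1) * gF d σ ω i) + ∑ i : Fin d, ((i : ℕ) + 1) * gF d σ ω' i := by
      rw [← Finset.sum_add_distrib]
      exact Finset.sum_congr rfl fun i _ => by ring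
    rw [this]
    push_cast
    ring
  have hsub : {q : ((ℕ → ℝ) × (ℕ → ℝ)) × ((ℕ → ℝ) × (ℕ → ℝ)) |
        d ^ 2 + ∑ i : Fin d, ((i : ℕ) + 1) * (gF d σ q.1.1 i + gF d σ q.2.1 i) = n ∧
        d' ^ 2 + ∑ i : Fin d', ((i : ℕ) + 1) * (gF d' σ' q.1.2 i + gF d' σ' q.2.2 i) = n ∧
        ((fun j => gs σ q.1.1 j), (fun j => gs σ' q.1.2 j)) ∈ F1 ∧
        ((fun j => gs σ q.2.1 j), (fun j => gs σ' q.2.2 j)) ∈ F2} ⊆ E := by
    intro q hq
    refine ⟨?_, ?_, hq.2.2.1, hq.2.2.2⟩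
    · rw [← e1 d σ q.1.1 q.2.1 h4, hq.1]
    · rw [← e1 d' σ' q.1.2 q.2.2 h4', hq.2.1]
  have mRS : Measurable (fun ω : ℕ → ℝ => RR σ L d ω + SS σ L ω) := (RR_meas σ L d).add (SS_meas σ L)
  have mRS' : Measurable (fun ω : ℕ → ℝ => RR σ' L d' ω + SS σ' L ω) :=
    (RR_meas σ' L d').add (SS_meas σ' L)
  have m11 : Measurable (fun q : ((ℕ → ℝ) × (ℕ → ℝ)) × ((ℕ → ℝ) × (ℕ → ℝ)) => q.1.1) :=
    measurable_fst.comp measurable_fst
  have m12 : Measurable (fun q : ((ℕ → ℝ) × (ℕ → ℝ)) × ((ℕ → ℝ) × (ℕ → ℝ)) => q.1.2) :=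
    measurable_snd.comp measurable_fst
  have m21 : Measurable (fun q : ((ℕ → ℝ) × (ℕ → ℝ)) × ((ℕ → ℝ) × (ℕ → ℝ)) => q.2.1) :=
    measurable_fst.comp measurable_snd
  have m22 : Measurable (fun q : ((ℕ → ℝ) × (ℕ → ℝ)) × ((ℕ → ℝ) × (ℕ → ℝ)) => q.2.2) :=
    measurable_snd.comp measurable_snd
  have mE : MeasurableSet E := by
    have c1 : Measurable (fun q : ((ℕ → ℝ) × (ℕ → ℝ)) × ((ℕ → ℝ) × (ℕ → ℝ)) =>
        (d : ℤ) ^ 2 + ((RR σ L d q.1.1 + SS σ L q.1.1) + (RR σ L d q.2.1 + SS σ L q.2.1))) :=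
      ((mRS.comp m11).add (mRS.comp m21)).const_add _
    have c2 : Measurable (fun q : ((ℕ → ℝ) × (ℕ → ℝ)) × ((ℕ → ℝ) × (ℕ → ℝ)) =>
        (d' : ℤ) ^ 2 + ((RR σ' L d' q.1.2 + SS σ' L q.1.2) + (RR σ' L d' q.2.2 + SS σ' L q.2.2))) :=
      ((mRS'.comp m12).add (mRS'.comp m22)).const_add _
    exact (c1 (measurableSet_singleton _)).inter ((c2 (measurableSet_singleton _)).inter
      ((measurable_fst mP1).inter (measurable_snd mP2)))
  set K : ℝ≥0∞ := ENNReal.ofReal x * (ENNReal.ofReal x' * (PP.prod PP) P1) with hK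
  have hmain : Q4 E ≤ K * (PP.prod PP) P2 := by
    unfold Q4
    rw [Measure.prod_apply_symm mE]
    calc ∫⁻ y, (PP.prod PP) ((fun x => (x, y)) ⁻¹' E) ∂(PP.prod PP)
        ≤ ∫⁻ y, P2.indicator (fun _ => K) y ∂(PP.prod PP) := by
          refine lintegral_mono fun y => ?_
          by_cases hy : y ∈ P2
          · rw [Set.indicator_of_mem hy]
            refine le_trans (measure_mono ?_) (slice hL hx hx' hF1
              ((n : ℤ) - (d : ℤ) ^ 2 - (RR σ L d y.1 + SS σ L y.1))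
              ((n : ℤ) - (d' : ℤ) ^ 2 - (RR σ' L d' y.2 + SS σ' L y.2)))
            intro p hp
            obtain ⟨p1, p2, p3, p4⟩ := hp
            refine ⟨?_, ?_, p3⟩
            · simp only at p1
              linarith
            · simp only at p2
              linarith
          · rw [Set.indicator_of_notMem hy]
            have : ((fun x => (x, y)) ⁻¹' E) = ∅ := by
              refine Set.eq_empty_iff_forall_notMem.2 fun p hp => hy hp.2.2.2
            rw [this, measure_empty]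
      _ = K * (PP.prod PP) P2 := by
          rw [lintegral_indicator mP2, lintegral_const, Measure.restrict_apply_univ]
  have hfin : K * (PP.prod PP) P2 ≠ ∞ := by
    rw [hK]
    exact ENNReal.mul_ne_top (ENNReal.mul_ne_top ENNReal.ofReal_ne_top
      (ENNReal.mul_ne_top ENNReal.ofReal_ne_top (measure_ne_top _ _))) (measure_ne_top _ _)
  have h3 : Q4.real E ≤ (K * (PP.prod PP) P2).toReal := ENNReal.toReal_mono hfin hmain
  have h5 : (K * (PP.prod PP) P2).toReal = x * (x' * (PP.prod PP).real P1) * (PP.prod PP).real P2 := by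
    rw [hK, ENNReal.toReal_mul, ENNReal.toReal_mul, ENNReal.toReal_mul, ENNReal.toReal_ofReal hx0,
      ENNReal.toReal_ofReal hx0']
    rfl
  rw [h5] at h3
  refine (measureReal_mono hsub (measure_ne_top _ _)).trans (h3.trans (le_of_eq ?_))
  ring

end Pool.Agent.H32.GP174.DU2
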